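import Pool.Agent.D0H93.ZC.Main
import Pool.Agent.W466.CI

/-!
# MP_d83ecd_ag: Zilber-Pink for all but finitely many rational members of the families of
subvarieties of `Y(1)^n` which degenerate to a CM point

The Shimura variety `Y(1)^n` is identified with `ℂ^n` by the elliptic modular function
`jj = j = E₄³ / Δ`.

**Families.** A one-parameter family `X_t` (`Family`, `Family.member`) of subsets of `Y(1)^n` over
the algebraic numbers is given by
* a family `B_t ⊆ P^N` of projective algebraic sets, defined by finitely many forms `G k` with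
  coefficients in `Qbar[t]`,
* quotients `A_i / B_i`, `i = 1, …, n`, of forms of the same degree with coefficients in `Qbar[t]`,
* polynomials `c_i ≠ 0` in `Qbar[t]`, and
* a point `s` of `X(1)^n`, `s_i = j(τ_i)` or `s_i = ∞` (the cusp);
`X_t` is the set of the `x ∈ ℂ^n` such that for some `y ∈ B_t` we have
`x_i = s_i + c_i(t) A_i(y) / B_i(y)` (for `s_i = ∞`: `x_i = A_i(y) / (c_i(t) B_i(y))`) for all `i`.

The family degenerates at the algebraic number `t = α` to the point `s`: we assume `c_i(α) = 0`, and
that the divisors of the `A_i / B_i` are in general position at `t = α`: no point of `B_α` is on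
`m + 1` of them.

We assume that the coordinates `s_i ≠ ∞` are singular moduli, `s_i = j(τ_i)` with imaginary
quadratic `τ_i ∈ ℚ(α)`, that `s_i ≠ 0, 1728`, that they are pairwise not isogenous (that is, the
fields `ℚ(τ_i)` are different), that at most one coordinate is `∞`, and that the degree of `α` is at
least `3` (this is automatic if two coordinates are different from `∞`).

**Theorem.** For all but finitely many rational numbers `t` the set `X_t` has no atypical
intersection with special subvarieties `Z` of `Y(1)^n`: every irreducible closed subset of `X_t ∩ Z`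
has dimension at most `dim Z + m - n`, and the same bound holds for the transcendence degrees of the
points of `X_t ∩ Z`; in particular `X_t ∩ Z` is empty for `dim Z < n - m`.

For example let `V ⊂ Y(1)^n` be any subvariety of dimension `m` over the algebraic numbers such that
no `m + 1` of the coordinates are all in `{0, ∞}` at a point of the closure of `V`, let `s` be a CM
point as above, and let `q` be a common multiple of the discriminants of the fields `ℚ(τ_i)`. Then
the cyclotomic polynomial `Φ_q` can be taken for the `c_i` (`α = exp(2 π i / q)`), and all but finitely many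
of the homothetic images `s + Φ_q(t) V`, `t ∈ ℚ`, have no atypical subvariety. For `n = 3` one can
take `s = (8000, -3375, -32768)`, `q = 616`.

**Proof.** By the `S`-unit theorem, for all but finitely many rational `t` there is a place `v`
above a large prime `p` at which `t` is near to `α` (`exists_near`). As `t` is rational, the
quadratic polynomials of the `τ_i ∈ ℚ(α)` have roots modulo `p`, hence `p` splits in the fields
`ℚ(τ_i)`, a power of `p` is the norm of an element of the order of `τ_i` with trace prime to `p`,
and the `s_i` are ordinary at `v` (`ord_near`). So two coordinates near to the `s_i` are never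
isogenous, and a coordinate near to `s_i` is special only if it is `s_i` or has one of the distances
of the singular moduli in the residue class, which are excluded since `p` is large compared with the
ramification (the library of the starting file `OrdinaryPlace`). These facts are applied to Gauss
valuations of `ℂ` above `v`, and the general position of the divisors to their composites with
valuations of the residue field.
-/

set_option autoImplicit false

namespace Pool.Agent.Results.MP_d83ecd_ag.CMDegeneration

open UpperHalfPlane H294ZP MvPolynomial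
open Pool.Agent.W282.ZP (idealOf zcl zdim)

/-- The field of the algebraic numbers. -/
noncomputable abbrev Qbar : IntermediateField ℚ ℂ := algebraicClosure ℚ ℂ

/-- A special subvariety of dimension `r` of `Y(1)^n`: a map `cls` from the coordinates onto `r`
classes (`none` for the constant coordinates), an integral matrix of positive determinant for each
coordinate, and a CM point for each coordinate. -/
structure SpecialVariety (n r : ℕ) where
  cls : Fin n → Option (Fin r)
  surj : ∀ l : Fin r, ∃ i, cls i = some l
  mat : Fin n → Matrix (Fin 2) (Fin 2) ℤ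
  det_pos : ∀ i, 0 < (mat i).det
  cm : Fin n → ℍ
  isCM : ∀ i, IsCM (cm i)

/-- The points of a special subvariety: the constant coordinates are the singular moduli
`j (cm i)`, the other coordinates are `j (g_i z_l)`, where `l` is the class of `i`, `g_i = mat i` and
`z_1, …, z_r` are free parameters in the upper half plane. -/
def SpecialVariety.locus {n r : ℕ} (Z : SpecialVariety n r) : Set (Fin n → ℂ) :=
  {x | ∃ z : Fin r → ℍ, ∀ i, (Z.cls i = none → x i = jj (Z.cm i)) ∧
    ∀ l, Z.cls i = some l → ∃ w : ℍ,
      (w : ℂ) * (Z.mat i 1 0 * z l + Z.mat i 1 1) = Z.mat i 0 0 * z l + Z.mat i 0 1 ∧ x i = jj w}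

/-- `x` and `x'` are the `j`-invariants of isogenous elliptic curves. -/
def Isogenous (x x' : ℂ) : Prop :=
  ∃ (g : Matrix (Fin 2) (Fin 2) ℤ) (τ τ' : ℍ), 0 < g.det ∧
    (τ' : ℂ) * (g 1 0 * τ + g 1 1) = g 0 0 * τ + g 0 1 ∧ jj τ = x ∧ jj τ' = x'

/-- A point of `X(1)^n` with coordinates `j (τ i)`, or `∞` for `τ i = none`. At most one coordinate
is `∞`; the other coordinates are singular moduli different from `0` and `1728`, pairwise not
isogenous, with `τ i` in the field `ℚ(α)`. -/
structure LimitPoint (α : ℂ) (n : ℕ) where
  τ : Fin n → Option ℍ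
  cm : ∀ i z, τ i = some z → IsCM z
  mem : ∀ i z, τ i = some z → (z : ℂ) ∈ IntermediateField.adjoin ℚ {α}
  not_zero : ∀ i z, τ i = some z → jj z ≠ 0
  not_1728 : ∀ i z, τ i = some z → jj z ≠ 1728
  not_isogenous : ∀ i k z z', i ≠ k → τ i = some z → τ k = some z' →
    ¬ Isogenous (jj z) (jj z')
  one_cusp : ∀ i k, τ i = none → τ k = none → i = k

/-- The data of a family: forms `G k` defining the projective sets `B_t`, forms `A i` and `B i` of
the same degree `d i`, and polynomials `c i ≠ 0`, all with coefficients in `Qbar[t]`. -/
structure Family (N n : ℕ) where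
  κ : Type
  finite : Finite κ
  G : κ → MvPolynomial (Fin (N + 1)) (Polynomial Qbar)
  hG : ∀ k, ∃ e, (G k).IsHomogeneous e
  A : Fin n → MvPolynomial (Fin (N + 1)) (Polynomial Qbar)
  B : Fin n → MvPolynomial (Fin (N + 1)) (Polynomial Qbar)
  d : Fin n → ℕ
  hA : ∀ i, (A i).IsHomogeneous (d i)
  hB : ∀ i, (B i).IsHomogeneous (d i)
  c : Fin n → Polynomial Qbar
  hc : ∀ i, c i ≠ 0

/-- The value of a form with coefficients in `Qbar[t]` at the parameter `t` and the vector `y`. -/
noncomputable def valueAt {N : ℕ} (t : ℂ) (P : MvPolynomial (Fin (N + 1)) (Polynomial Qbar))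
    (y : Fin (N + 1) → ℂ) : ℂ :=
  eval₂ (Polynomial.aeval t : Polynomial Qbar →ₐ[Qbar] ℂ).toRingHom y P

/-- `y` is a vector of homogeneous coordinates of a point of the projective set `B_t`. -/
def Family.OnB {N n : ℕ} (F : Family N n) (t : ℂ) (y : Fin (N + 1) → ℂ) : Prop :=
  y ≠ 0 ∧ ∀ k, valueAt t (F.G k) y = 0

/-- The equation between the coordinate `x` of the point of `X_t`, its limit (`none` for the cusp)
and the values `c = c_i(t)`, `a = A_i(y)`, `b = B_i(y)`: `x = j(z) + c a / b`, or `x = a / (c b)`,
without denominators. -/
def Coordinate (s : Option ℍ) (c a b x : ℂ) : Prop :=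
  match s with
  | none => c * b * x = a
  | some z => b * (x - jj z) = c * a

/-- The member `X_t` of the family. -/
def Family.member {N n : ℕ} (F : Family N n) {α : ℂ} (s : LimitPoint α n) (t : ℂ) :
    Set (Fin n → ℂ) :=
  {x | ∃ y, F.OnB t y ∧ ∀ i,
    Coordinate (s.τ i) (Polynomial.aeval t (F.c i)) (valueAt t (F.A i) y) (valueAt t (F.B i) y) (x i)}

/-- The divisors of the `A i / B i` are in general position at the parameter `t`: no point of `B_t`
is on `m + 1` of them. -/
def Family.InGeneralPosition {N n : ℕ} (F : Family N n) (t : ℂ) (m : ℕ) : Prop :=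
  ∀ I : Finset (Fin n), I.card = m + 1 → ∀ y, F.OnB t y →
    ∃ i ∈ I, valueAt t (F.A i) y * valueAt t (F.B i) y ≠ 0

/-- `X` has no intersection of dimension larger than `r + m - n` with special subvarieties `Z` of
dimension `r`: every irreducible closed subset `W` of `X ∩ Z` has dimension at most `r + m - n`, and
every point of `X ∩ Z` has transcendence degree at most `r + m - n`. -/
def NoAtypical {n : ℕ} (m : ℕ) (X : Set (Fin n → ℂ)) : Prop :=
  ∀ (r : ℕ) (Z : SpecialVariety n r),
    (∀ W ⊆ X ∩ Z.locus, zcl W ⊆ W → (idealOf W).IsPrime →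
      zdim W + (n : Cardinal) ≤ (r : Cardinal) + (m : Cardinal)) ∧
    ∀ x ∈ X ∩ Z.locus, ∀ S : Finset (Fin n), AlgebraicIndependent ℚ (fun i : S => x i) →
      S.card + n ≤ r + m

theorem valueAt_eq {N : ℕ} (t : Qbar) (P : MvPolynomial (Fin (N + 1)) (Polynomial Qbar))
    (y : Fin (N + 1) → ℂ) :
    valueAt (t : ℂ) P y = aeval y (Pool.Agent.TH526.ZL.spec t P) := by
  rw [Pool.Agent.TH526.ZL.aeval_spec, valueAt, eval₂_eq']
  refine Finset.sum_congr rfl fun u _ => ?_
  congr 1
  change Polynomial.aeval (algebraMap Qbar ℂ t) (P.coeff u) = _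
  rw [Polynomial.aeval_algebraMap_apply, Polynomial.coe_aeval_eq_eval]

/-- All but finitely many rational members of a family which degenerates to a CM point have no
atypical intersections with special subvarieties. -/
theorem result {N n m : ℕ} (F : Family N n) (α : Qbar)
    (hα : 3 ≤ (minpoly ℚ (α : ℂ)).natDegree) (s : LimitPoint (α : ℂ) n)
    (hc : ∀ i, (F.c i).eval α = 0) (hgen : F.InGeneralPosition α m) :
    {t : ℚ | ¬ NoAtypical m (F.member s t)}.Finite := by
  have := F.finite
  have h1 := Pool.Agent.D0H93.ZC.main_finite F.G F.hG F.A F.B F.d F.hA F.hB F.c F.hc α hα hc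
    (m := m) (fun I hI y hyG hyI => by
      by_contra hy0
      obtain ⟨i, hi, h2⟩ := hgen I hI y ⟨hy0, fun k => by rw [valueAt_eq]; exact hyG k⟩
      rw [valueAt_eq, valueAt_eq] at h2
      exact h2 (hyI i hi)) s.τ s.cm s.mem s.not_zero s.not_1728
    (fun i k z z' hik hi hk hiso => by
      obtain ⟨M, τ, w, h3, h4, h5, h6⟩ := hiso
      exact s.not_isogenous i k z z' hik hi hk ⟨M, τ, w, h3, h4, h5, h6⟩) s.one_cusp
  refine h1.subset ?_
  intro t ht hall
  apply ht
  have hpt : ∀ (r : ℕ) (Z : SpecialVariety n r), ∀ x ∈ F.member s t ∩ Z.locus,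
      ∀ S : Finset (Fin n), AlgebraicIndependent ℚ (fun i : S => x i) → S.card + n ≤ r + m := by
    rintro r Z x ⟨⟨y, ⟨hy0, hyG⟩, hxy⟩, hxZ⟩ S hS
    have hcast : ((t : Qbar) : ℂ) = (t : ℂ) := by push_cast; rfl
    have h2 := hall r ⟨Z.cls, Z.surj, Z.mat, Z.det_pos, Z.cm, Z.isCM⟩ x hxZ y hy0
      (fun k => by
        rw [← valueAt_eq, hcast]
        exact hyG k)
      (fun i => by
        have h3 := hxy i
        rw [← hcast, valueAt_eq, valueAt_eq] at h3
        have h4 : Polynomial.aeval ((t : Qbar) : ℂ) (F.c i) =
            (((F.c i).eval (t : Qbar) : Qbar) : ℂ) := by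
          change Polynomial.aeval (algebraMap Qbar ℂ (t : Qbar)) (F.c i) = _
          rw [Polynomial.aeval_algebraMap_apply, Polynomial.coe_aeval_eq_eval]
          rfl
        rw [h4] at h3
        exact h3) S hS
    omega
  intro r Z
  refine ⟨?_, hpt r Z⟩
  intro W hW hcl hprime
  obtain ⟨x, hxW, T, hT, hdim⟩ := Pool.Agent.W466.ZC.generic_dim ℚ W hprime hcl
  have h2 := hpt r Z x (hW hxW) T hT
  calc zdim W + (n : Cardinal) ≤ (T.card : Cardinal) + (n : Cardinal) := by gcongr
    _ = ((T.card + n : ℕ) : Cardinal) := by push_cast; rfl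
    _ ≤ ((r + m : ℕ) : Cardinal) := by exact_mod_cast h2
    _ = (r : Cardinal) + (m : Cardinal) := by push_cast; rfl

end Pool.Agent.Results.MP_d83ecd_ag.CMDegeneration
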