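import Pool.Agent.D0H93.ZD.Main
import Pool.Agent.W466.CI

/-!
# MP_d83ecd_ag: one set of density zero for Zilber-Pink for the integral members of all families of
subvarieties of `Y(1)^n` which degenerate to a CM point

The Shimura variety `Y(1)^n` is identified with `ℂ^n` by the elliptic modular function
`jj = j = E₄³ / Δ`.

**Families.** A one-parameter family `X_t` (`Family`, `Family.member`) of subsets of `Y(1)^n` over
the algebraic numbers is given by
* a family `B_t ⊆ P^N` of projective algebraic sets, defined by finitely many forms `G k` with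
  coefficients in `Qbar[t]`,
* quotients `A_i / B_i`, `i = 1, …, n`, of forms of the same degree with coefficients in `Qbar[t]`,
* polynomials `c_i ≠ 0` in `Qbar[t]`, and
* a point `s` of `X(1)^n` (`LimitPoint`), `s_i = j(τ_i)` or `s_i = ∞` (the cusp);
`X_t` is the set of the `x ∈ ℂ^n` such that for some `y ∈ B_t` we have
`x_i = s_i + c_i(t) A_i(y) / B_i(y)` (for `s_i = ∞`: `x_i = A_i(y) / (c_i(t) B_i(y))`) for all `i`.

We assume that the coordinates `s_i ≠ ∞` are singular moduli different from `0` and `1728` and
pairwise not isogenous (that is, their CM fields are different), and that at most one coordinate is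
`∞`. The family degenerates to the point `s` at an algebraic number `α`, of any degree: we assume
`c_i(α) = 0` and that the divisors of the `A_i / B_i` are in general position at `t = α`: no point
of `B_α` is on `m + 1` of them.

**Theorem.** There is ONE set `E` of integers of natural density zero such that for ALL `n`, `N`, `m`,
all such points `s`, all algebraic numbers `α` and all such families `X_t`, of any dimension, the
following is true for all but finitely many integers `t` outside `E`: the set `X_t` has no atypical
intersection with special subvarieties `Z` of `Y(1)^n`. That is, every irreducible closed subset of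
`X_t ∩ Z` has dimension at most `dim Z + m - n`, and the same bound holds for the transcendence
degrees of the points of `X_t ∩ Z`; in particular `X_t ∩ Z` is empty for `dim Z < n - m`.

For example (`α = 0`, `c_i = t`) let `V ⊂ Y(1)^n` be any subvariety of dimension `m` over the
algebraic numbers such that no `m + 1` of the coordinates are all in `{0, ∞}` at a point of the
closure of `V`, and let `s ∈ Y(1)^n` be any CM point whose coordinates belong to different CM
fields, not `ℚ(i)` or `ℚ(√-3)` (or have the value `j ≠ 0, 1728`). Then for almost all integers `t`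
the homothetic image `s + t V` has no atypical subvariety, and neither has `s + f(t) V` for any
polynomial `f` over `Qbar` which is not constant; `E` depends neither on `V` nor on `s`, `f`, `n`.

The starting results on one null set (`OneNullSet`) are on families which tend to the cusp
`(∞, …, ∞)`; there one needs at least `n (n - 1) / 2 + 1` degenerate members with independent
exponents. In the result `CMDegeneration` the parameter `α` has degree at least three and generates
the CM fields of `s`, and the exceptional set is finite.

**Proof.** For almost all integers `t` there is a place `v` of a given number field which contains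
`α` above a prime number `p ≡ 1` modulo `k!` at which `t` is near to `α` (`null_bad`): the sum of
`1 / p` over the primes with a prime of degree one above them in a cyclotomic extension of
`ℚ(α)` diverges (by the pole of the Dedekind zeta function), and `t` avoids a residue class modulo
each of them if there is no such `v`. There are countably many pairs of a number field
and a number `α`, and a diagonal argument gives one set `E`. Every CM point is ordinary at the
primes `p ≡ 1` modulo `k!`, `k` large, by quadratic reciprocity and a descent for the norm form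
(`ordAt_of_modEq`). At such a place two coordinates near to the `s_i` are never isogenous, and
a coordinate near to `s_i` is special only if it has one of the distances from `s_i`
of the singular moduli in its residue class, which are excluded since `p` is large compared with
the ramification. These facts are applied to Gauss valuations of `ℂ` above `v`, and the general
position of the divisors to their composites with valuations of the residue field (`main_place`).
-/

set_option autoImplicit false

namespace Pool.Agent.Results.MP_d83ecd_ag.CMDegenerationDensity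

open UpperHalfPlane H294ZP MvPolynomial
open Pool.Agent.W282.ZP (idealOf zcl zdim)

/-- The field of the algebraic numbers. -/
noncomputable abbrev Qbar : IntermediateField ℚ ℂ := algebraicClosure ℚ ℂ

/-- A special subvariety of dimension `r` of `Y(1)^n`: a map `cls` from the coordinates onto `r`
classes (`none` for the constant coordinates), an integral matrix of positive determinant for each
coordinate, and a CM point for each coordinate. -/
structure SpecialVariety (n r : ℕ) where
  cls : Fin n → Option (Fin r)
  surj : ∀ l : Fin r, ∃ i, cls i = some l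
  mat : Fin n → Matrix (Fin 2) (Fin 2) ℤ
  det_pos : ∀ i, 0 < (mat i).det
  cm : Fin n → ℍ
  isCM : ∀ i, IsCM (cm i)

/-- The points of a special subvariety: the constant coordinates are the singular moduli
`j (cm i)`, the other coordinates are `j (g_i z_l)`, where `l` is the class of `i`, `g_i = mat i` and
`z_1, …, z_r` are free parameters in the upper half plane. -/
def SpecialVariety.locus {n r : ℕ} (Z : SpecialVariety n r) : Set (Fin n → ℂ) :=
  {x | ∃ z : Fin r → ℍ, ∀ i, (Z.cls i = none → x i = jj (Z.cm i)) ∧
    ∀ l, Z.cls i = some l → ∃ w : ℍ,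
      (w : ℂ) * (Z.mat i 1 0 * z l + Z.mat i 1 1) = Z.mat i 0 0 * z l + Z.mat i 0 1 ∧ x i = jj w}

/-- `x` and `x'` are the `j`-invariants of isogenous elliptic curves. -/
def Isogenous (x x' : ℂ) : Prop :=
  ∃ (g : Matrix (Fin 2) (Fin 2) ℤ) (τ τ' : ℍ), 0 < g.det ∧
    (τ' : ℂ) * (g 1 0 * τ + g 1 1) = g 0 0 * τ + g 0 1 ∧ jj τ = x ∧ jj τ' = x'

/-- A point of `X(1)^n` with coordinates `j (τ i)`, or `∞` for `τ i = none`. At most one coordinate
is `∞`; the other coordinates are singular moduli different from `0` and `1728`, pairwise not
isogenous. -/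
structure LimitPoint (n : ℕ) where
  τ : Fin n → Option ℍ
  cm : ∀ i z, τ i = some z → IsCM z
  not_zero : ∀ i z, τ i = some z → jj z ≠ 0
  not_1728 : ∀ i z, τ i = some z → jj z ≠ 1728
  not_isogenous : ∀ i k z z', i ≠ k → τ i = some z → τ k = some z' →
    ¬ Isogenous (jj z) (jj z')
  one_cusp : ∀ i k, τ i = none → τ k = none → i = k

/-- The data of a family: forms `G k` defining the projective sets `B_t`, forms `A i` and `B i` of
the same degree `d i`, and polynomials `c i ≠ 0`, all with coefficients in `Qbar[t]`. -/
structure Family (N n : ℕ) where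
  κ : Type
  finite : Finite κ
  G : κ → MvPolynomial (Fin (N + 1)) (Polynomial Qbar)
  hG : ∀ k, ∃ e, (G k).IsHomogeneous e
  A : Fin n → MvPolynomial (Fin (N + 1)) (Polynomial Qbar)
  B : Fin n → MvPolynomial (Fin (N + 1)) (Polynomial Qbar)
  d : Fin n → ℕ
  hA : ∀ i, (A i).IsHomogeneous (d i)
  hB : ∀ i, (B i).IsHomogeneous (d i)
  c : Fin n → Polynomial Qbar
  hc : ∀ i, c i ≠ 0

/-- The value of a form with coefficients in `Qbar[t]` at the parameter `t` and the vector `y`. -/
noncomputable def valueAt {N : ℕ} (t : ℂ) (P : MvPolynomial (Fin (N + 1)) (Polynomial Qbar))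
    (y : Fin (N + 1) → ℂ) : ℂ :=
  eval₂ (Polynomial.aeval t : Polynomial Qbar →ₐ[Qbar] ℂ).toRingHom y P

/-- `y` is a vector of homogeneous coordinates of a point of the projective set `B_t`. -/
def Family.OnB {N n : ℕ} (F : Family N n) (t : ℂ) (y : Fin (N + 1) → ℂ) : Prop :=
  y ≠ 0 ∧ ∀ k, valueAt t (F.G k) y = 0

/-- The equation between the coordinate `x` of the point of `X_t`, its limit (`none` for the cusp)
and the values `c = c_i(t)`, `a = A_i(y)`, `b = B_i(y)`: `x = j(z) + c a / b`, or `x = a / (c b)`,
without denominators. -/
def Coordinate (s : Option ℍ) (c a b x : ℂ) : Prop :=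
  match s with
  | none => c * b * x = a
  | some z => b * (x - jj z) = c * a

/-- The member `X_t` of the family. -/
def Family.member {N n : ℕ} (F : Family N n) (s : LimitPoint n) (t : ℂ) : Set (Fin n → ℂ) :=
  {x | ∃ y, F.OnB t y ∧ ∀ i,
    Coordinate (s.τ i) (Polynomial.aeval t (F.c i)) (valueAt t (F.A i) y) (valueAt t (F.B i) y) (x i)}

/-- The divisors of the `A i / B i` are in general position at the parameter `t`: no point of `B_t`
is on `m + 1` of them. -/
def Family.InGeneralPosition {N n : ℕ} (F : Family N n) (t : ℂ) (m : ℕ) : Prop :=
  ∀ I : Finset (Fin n), I.card = m + 1 → ∀ y, F.OnB t y →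
    ∃ i ∈ I, valueAt t (F.A i) y * valueAt t (F.B i) y ≠ 0

/-- `X` has no intersection of dimension larger than `r + m - n` with special subvarieties `Z` of
dimension `r`: every irreducible closed subset `W` of `X ∩ Z` has dimension at most `r + m - n`, and
every point of `X ∩ Z` has transcendence degree at most `r + m - n`. -/
def NoAtypical {n : ℕ} (m : ℕ) (X : Set (Fin n → ℂ)) : Prop :=
  ∀ (r : ℕ) (Z : SpecialVariety n r),
    (∀ W ⊆ X ∩ Z.locus, zcl W ⊆ W → (idealOf W).IsPrime →
      zdim W + (n : Cardinal) ≤ (r : Cardinal) + (m : Cardinal)) ∧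
    ∀ x ∈ X ∩ Z.locus, ∀ S : Finset (Fin n), AlgebraicIndependent ℚ (fun i : S => x i) →
      S.card + n ≤ r + m

/-- `E` has natural density zero in the integers. -/
def DensityZero (E : Set ℤ) : Prop :=
  ∀ ε : ℝ, 0 < ε → ∃ N₀ : ℕ, ∀ N : ℕ, N₀ ≤ N →
    ({t : ℤ | t ∈ E ∧ |t| ≤ N}.ncard : ℝ) ≤ ε * N

theorem valueAt_eq {N : ℕ} (t : Qbar) (P : MvPolynomial (Fin (N + 1)) (Polynomial Qbar))
    (y : Fin (N + 1) → ℂ) :
    valueAt (t : ℂ) P y = aeval y (Pool.Agent.TH526.ZL.spec t P) := by
  rw [Pool.Agent.TH526.ZL.aeval_spec, valueAt, eval₂_eq']
  refine Finset.sum_congr rfl fun u _ => ?_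
  congr 1
  change Polynomial.aeval (algebraMap Qbar ℂ t) (P.coeff u) = _
  rw [Polynomial.aeval_algebraMap_apply, Polynomial.coe_aeval_eq_eval]

/-- One set of density zero for the integral members of all families which degenerate to a
CM point. -/
theorem result : ∃ E : Set ℤ, DensityZero E ∧ ∀ (N n m : ℕ) (F : Family N n) (s : LimitPoint n)
    (α : Qbar), (∀ i, (F.c i).eval α = 0) → F.InGeneralPosition α m →
      {t : ℤ | t ∉ E ∧ ¬ NoAtypical m (F.member s t)}.Finite := by
  obtain ⟨E, hE, hmain⟩ := Pool.Agent.D0H93.ZD.main_density
  refine ⟨E, hE, ?_⟩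
  intro N n m F s α hc hgen
  have := F.finite
  have h1 := hmain F.G F.hG F.A F.B F.d F.hA F.hB F.c F.hc α hc
    (m := m) (fun I hI y hyG hyI => by
      by_contra hy0
      obtain ⟨i, hi, h2⟩ := hgen I hI y ⟨hy0, fun k => by rw [valueAt_eq]; exact hyG k⟩
      rw [valueAt_eq, valueAt_eq] at h2
      exact h2 (hyI i hi)) s.τ s.cm s.not_zero s.not_1728
    (fun i k z z' hik hi hk hiso => by
      obtain ⟨M, τ, w, h3, h4, h5, h6⟩ := hiso
      exact s.not_isogenous i k z z' hik hi hk ⟨M, τ, w, h3, h4, h5, h6⟩) s.one_cusp
  refine h1.subset ?_
  rintro t ⟨htE, ht⟩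
  refine ⟨htE, fun hall => ht ?_⟩
  have hpt : ∀ (r : ℕ) (Z : SpecialVariety n r), ∀ x ∈ F.member s t ∩ Z.locus,
      ∀ S : Finset (Fin n), AlgebraicIndependent ℚ (fun i : S => x i) → S.card + n ≤ r + m := by
    rintro r Z x ⟨⟨y, ⟨hy0, hyG⟩, hxy⟩, hxZ⟩ S hS
    have hcast : ((t : Qbar) : ℂ) = (t : ℂ) := by push_cast; rfl
    have h2 := hall r ⟨Z.cls, Z.surj, Z.mat, Z.det_pos, Z.cm, Z.isCM⟩ x hxZ y hy0
      (fun k => by
        rw [← valueAt_eq, hcast]
        exact hyG k)
      (fun i => by
        have h3 := hxy i
        rw [← hcast, valueAt_eq, valueAt_eq] at h3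
        have h4 : Polynomial.aeval ((t : Qbar) : ℂ) (F.c i) =
            (((F.c i).eval (t : Qbar) : Qbar) : ℂ) := by
          change Polynomial.aeval (algebraMap Qbar ℂ (t : Qbar)) (F.c i) = _
          rw [Polynomial.aeval_algebraMap_apply, Polynomial.coe_aeval_eq_eval]
          rfl
        rw [h4] at h3
        exact h3) S hS
    omega
  intro r Z
  refine ⟨?_, hpt r Z⟩
  intro W hW hcl hprime
  obtain ⟨x, hxW, T, hT, hdim⟩ := Pool.Agent.W466.ZC.generic_dim ℚ W hprime hcl
  have h2 := hpt r Z x (hW hxW) T hT
  calc zdim W + (n : Cardinal) ≤ (T.card : Cardinal) + (n : Cardinal) := by gcongr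
    _ = ((T.card + n : ℕ) : Cardinal) := by push_cast; rfl
    _ ≤ ((r + m : ℕ) : Cardinal) := by exact_mod_cast h2
    _ = (r : Cardinal) + (m : Cardinal) := by push_cast; rfl

end Pool.Agent.Results.MP_d83ecd_ag.CMDegenerationDensity
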