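import Pool.Agent.D0H93.ZF.Ell
import Pool.Agent.W466.CI

/-!
# MP_d83ecd_ag: Zilber-Pink for all but finitely many rational members of families over an elliptic
curve with one degenerate member

The Shimura variety `Y(1)^n` is identified with `ℂ^n` by the elliptic modular function
`jj = j = E₄³ / Δ`.

**Families.** Let `E : y² = x³ + a x + b` be an elliptic curve over `ℚ`. A family `X_P`, `P ∈ E`
(`Family`, `Family.member`), of subsets of `Y(1)^n` is given by
* a family `B_t ⊆ P^N` of projective algebraic sets, defined by finitely many forms `G k` with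
  coefficients in `Qbar[t]`, and a rational function `t = u(P) / w(P)` on `E` (so `B_t` can be a
  fixed variety, or the pull-back to `E` of any one-parameter family),
* quotients `A_i / B_i`, `i = 1, …, n`, of forms of the same degree with coefficients in `Qbar[t]`,
* functions `c_i ∈ Qbar[x, y]` on `E`, not identically zero, and
* a point `s` of `X(1)^n`, `s_i = j(τ_i)` or `s_i = ∞` (the cusp);
`X_P` is the set of the `x ∈ ℂ^n` such that for some `y ∈ B_t`, `t = u(P) / w(P)`, we have
`x_i = s_i + c_i(P) A_i(y) / B_i(y)` (for `s_i = ∞`: `x_i = A_i(y) / (c_i(P) B_i(y))`) for all `i`.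

The family degenerates at ONE algebraic point `Q` of `E` to the point `s`: we assume `c_i(Q) = 0`, and
that the divisors of the `A_i / B_i` are in general position at `t = u(Q) / w(Q)` (`w(Q) ≠ 0`): no
point of `B_t` is on `m + 1` of them.

We assume that the coordinates `s_i ≠ ∞` are singular moduli, `s_i = j(τ_i)` with imaginary
quadratic `τ_i` in the field `ℚ(Q)` generated by the coordinates of `Q`, that `s_i ≠ 0, 1728`, that
they are pairwise not isogenous (that is, the fields `ℚ(τ_i)` are different), and that at most one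
coordinate is `∞`.

**Theorem.** For all but finitely many of the points `P` of `E` over `ℚ` the set `X_P` has no
atypical intersection with special subvarieties `Z` of `Y(1)^n`: every irreducible closed subset of
`X_P ∩ Z` has dimension at most `dim Z + m - n`, and the same bound holds for the transcendence
degrees of the points of `X_P ∩ Z`; in particular `X_P ∩ Z` is empty for `dim Z < n - m`.

For example, let `V ⊂ Y(1)^n` be any subvariety of dimension `m` over the algebraic numbers such that
no `m + 1` of the coordinates are all in `{0, ∞}` at a point of the closure of `V`. Let `Q` be a point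
of `E` over a number field which contains the `τ_i` and is generated by the coordinates of `Q` (on
every elliptic curve over `ℚ` there are such points: choose `x(Q)` in a multiquadratic field). Let
`f` be the minimal polynomial of `x(Q)` over `ℚ`. Then all but finitely many of the translates
`s + f(x(P)) V`, `P ∈ E(ℚ)`, have no atypical subvariety. If the rank of `E` is positive these are
infinitely many subvarieties, and their parameters `f(x(P))` are an infinite set of rational numbers
of density zero, about which the results with small or sparse exceptional sets say nothing.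

The starting files of `MP_130685_nt` (`FamiliesOverEllipticCurves`, `FewMembersOverEllipticCurves`)
need `n (n - 1) / 2 + 1`, or `m + 2`, members of the family which degenerate to the point
`(∞, …, ∞)`, with conditions on the orders of vanishing. Our result `CMDegeneration` has a rational
parameter, for which the degree of the degenerate parameter must be at least three.

**Proof.** By Siegel's theorem (all but finitely many points `P` over `ℚ` are near to `Q` at some
place above a large prime `p`, since otherwise `P - Q` is an integral point over a fixed ring of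
`S`-integers; file `Y199/SG/Pt` of the starting files) we have `P ≡ Q` at such a place. As `P` is
rational, the quadratic polynomials of the `τ_i ∈ ℚ(Q)` have roots modulo `p`, hence `p` splits in the
fields `ℚ(τ_i)` and the `s_i` are ordinary at this place (`ord_near'`). So two coordinates near to the
`s_i` are never isogenous, and a coordinate near to `s_i` is special only if it is `s_i` or has one of
the distances of the singular moduli in the residue class, which are excluded since `p` is large
compared with the ramification (`local_family`).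
-/

set_option autoImplicit false

namespace Pool.Agent.Results.MP_d83ecd_ag.CMDegenerationElliptic

open UpperHalfPlane H294ZP MvPolynomial
open Pool.Agent.W282.ZP (idealOf zcl zdim)

/-- The field of the algebraic numbers. -/
noncomputable abbrev Qbar : IntermediateField ℚ ℂ := algebraicClosure ℚ ℂ

/-- A special subvariety of dimension `r` of `Y(1)^n`: a map `cls` from the coordinates onto `r`
classes (`none` for the constant coordinates), an integral matrix of positive determinant for each
coordinate, and a CM point for each coordinate. -/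
structure SpecialVariety (n r : ℕ) where
  cls : Fin n → Option (Fin r)
  surj : ∀ l : Fin r, ∃ i, cls i = some l
  mat : Fin n → Matrix (Fin 2) (Fin 2) ℤ
  det_pos : ∀ i, 0 < (mat i).det
  cm : Fin n → ℍ
  isCM : ∀ i, IsCM (cm i)

/-- The points of a special subvariety: the constant coordinates are the singular moduli
`j (cm i)`, the other coordinates are `j (g_i z_l)`, where `l` is the class of `i`, `g_i = mat i` and
`z_1, …, z_r` are free parameters in the upper half plane. -/
def SpecialVariety.locus {n r : ℕ} (Z : SpecialVariety n r) : Set (Fin n → ℂ) :=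
  {x | ∃ z : Fin r → ℍ, ∀ i, (Z.cls i = none → x i = jj (Z.cm i)) ∧
    ∀ l, Z.cls i = some l → ∃ w : ℍ,
      (w : ℂ) * (Z.mat i 1 0 * z l + Z.mat i 1 1) = Z.mat i 0 0 * z l + Z.mat i 0 1 ∧ x i = jj w}

/-- `x` and `x'` are the `j`-invariants of isogenous elliptic curves. -/
def Isogenous (x x' : ℂ) : Prop :=
  ∃ (g : Matrix (Fin 2) (Fin 2) ℤ) (τ τ' : ℍ), 0 < g.det ∧
    (τ' : ℂ) * (g 1 0 * τ + g 1 1) = g 0 0 * τ + g 0 1 ∧ jj τ = x ∧ jj τ' = x'

/-- The affine points of the curve `y² = x³ + a x + b`. -/
def Curve (a b : ℚ) : Set (Fin 2 → ℂ) := {P | P 1 ^ 2 = P 0 ^ 3 + a * P 0 + b}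

/-- A point of `X(1)^n` with coordinates `j (τ i)`, or `∞` for `τ i = none`. At most one coordinate
is `∞`; the other coordinates are singular moduli different from `0` and `1728`, pairwise not
isogenous, with `τ i` in the field `ℚ(Q)`. -/
structure LimitPoint (Q : Fin 2 → ℂ) (n : ℕ) where
  τ : Fin n → Option ℍ
  cm : ∀ i z, τ i = some z → IsCM z
  mem : ∀ i z, τ i = some z → (z : ℂ) ∈ IntermediateField.adjoin ℚ (Set.range Q)
  not_zero : ∀ i z, τ i = some z → jj z ≠ 0
  not_1728 : ∀ i z, τ i = some z → jj z ≠ 1728
  not_isogenous : ∀ i k z z', i ≠ k → τ i = some z → τ k = some z' →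
    ¬ Isogenous (jj z) (jj z')
  one_cusp : ∀ i k, τ i = none → τ k = none → i = k

/-- The data of a family: forms `G k` defining the projective sets `B_t`, forms `A i` and `B i` of
the same degree `d i` with coefficients in `Qbar[t]`, and polynomials `u`, `w`, `c i` in
`Qbar[x, y]`. -/
structure Family (N n : ℕ) where
  κ : Type
  finite : Finite κ
  G : κ → MvPolynomial (Fin (N + 1)) (Polynomial Qbar)
  hG : ∀ k, ∃ e, (G k).IsHomogeneous e
  A : Fin n → MvPolynomial (Fin (N + 1)) (Polynomial Qbar)
  B : Fin n → MvPolynomial (Fin (N + 1)) (Polynomial Qbar)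
  d : Fin n → ℕ
  hA : ∀ i, (A i).IsHomogeneous (d i)
  hB : ∀ i, (B i).IsHomogeneous (d i)
  u : MvPolynomial (Fin 2) Qbar
  w : MvPolynomial (Fin 2) Qbar
  c : Fin n → MvPolynomial (Fin 2) Qbar

/-- The parameter `t = u(P) / w(P)`. -/
noncomputable def Family.par {N n : ℕ} (F : Family N n) (P : Fin 2 → ℂ) : ℂ :=
  aeval P F.u / aeval P F.w

/-- The value of a form with coefficients in `Qbar[t]` at the parameter `t` and the vector `y`. -/
noncomputable def valueAt {N : ℕ} (t : ℂ) (P : MvPolynomial (Fin (N + 1)) (Polynomial Qbar))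
    (y : Fin (N + 1) → ℂ) : ℂ :=
  eval₂ (Polynomial.aeval t : Polynomial Qbar →ₐ[Qbar] ℂ).toRingHom y P

/-- `y` is a vector of homogeneous coordinates of a point of the projective set `B_t`. -/
def Family.OnB {N n : ℕ} (F : Family N n) (t : ℂ) (y : Fin (N + 1) → ℂ) : Prop :=
  y ≠ 0 ∧ ∀ k, valueAt t (F.G k) y = 0

/-- The equation between the coordinate `x` of the point of `X_P`, its limit (`none` for the cusp)
and the values `c = c_i(P)`, `a = A_i(y)`, `b = B_i(y)`: `x = j(z) + c a / b`, or `x = a / (c b)`,
without denominators. -/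
def Coordinate (s : Option ℍ) (c a b x : ℂ) : Prop :=
  match s with
  | none => c * b * x = a
  | some z => b * (x - jj z) = c * a

/-- The member `X_P` of the family. -/
def Family.member {N n : ℕ} (F : Family N n) {Q : Fin 2 → ℂ} (s : LimitPoint Q n)
    (P : Fin 2 → ℂ) : Set (Fin n → ℂ) :=
  {x | ∃ y, F.OnB (F.par P) y ∧ ∀ i,
    Coordinate (s.τ i) (aeval P (F.c i)) (valueAt (F.par P) (F.A i) y)
      (valueAt (F.par P) (F.B i) y) (x i)}

/-- The divisors of the `A i / B i` are in general position at the parameter `t`: no point of `B_t`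
is on `m + 1` of them. -/
def Family.InGeneralPosition {N n : ℕ} (F : Family N n) (t : ℂ) (m : ℕ) : Prop :=
  ∀ I : Finset (Fin n), I.card = m + 1 → ∀ y, F.OnB t y →
    ∃ i ∈ I, valueAt t (F.A i) y * valueAt t (F.B i) y ≠ 0

/-- `X` has no intersection of dimension larger than `r + m - n` with special subvarieties `Z` of
dimension `r`: every irreducible closed subset `W` of `X ∩ Z` has dimension at most `r + m - n`, and
every point of `X ∩ Z` has transcendence degree at most `r + m - n`. -/
def NoAtypical {n : ℕ} (m : ℕ) (X : Set (Fin n → ℂ)) : Prop :=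
  ∀ (r : ℕ) (Z : SpecialVariety n r),
    (∀ W ⊆ X ∩ Z.locus, zcl W ⊆ W → (idealOf W).IsPrime →
      zdim W + (n : Cardinal) ≤ (r : Cardinal) + (m : Cardinal)) ∧
    ∀ x ∈ X ∩ Z.locus, ∀ S : Finset (Fin n), AlgebraicIndependent ℚ (fun i : S => x i) →
      S.card + n ≤ r + m

theorem valueAt_eq {N : ℕ} (t : Qbar) (P : MvPolynomial (Fin (N + 1)) (Polynomial Qbar))
    (y : Fin (N + 1) → ℂ) :
    valueAt (t : ℂ) P y = aeval y (Pool.Agent.TH526.ZL.spec t P) := by
  rw [Pool.Agent.TH526.ZL.aeval_spec, valueAt, eval₂_eq']
  refine Finset.sum_congr rfl fun u _ => ?_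
  congr 1
  change Polynomial.aeval (algebraMap Qbar ℂ t) (P.coeff u) = _
  rw [Polynomial.aeval_algebraMap_apply, Polynomial.coe_aeval_eq_eval]

theorem par_eq {N n : ℕ} (F : Family N n) (P : Fin 2 → Qbar) :
    F.par (fun j => ((P j : Qbar) : ℂ)) = ((eval P F.u / eval P F.w : Qbar) : ℂ) := by
  unfold Family.par
  rw [← Pool.Agent.D0H93.ZF.coe_eval, ← Pool.Agent.D0H93.ZF.coe_eval]
  push_cast
  rfl

/-- All but finitely many rational members of a family over an elliptic curve which degenerates to a
CM point at one algebraic point have no atypical intersections with special subvarieties. -/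
theorem result {N n m : ℕ} (a b : ℚ) (hab : 4 * a ^ 3 + 27 * b ^ 2 ≠ 0) (F : Family N n)
    (Q : Fin 2 → Qbar) (hQ : (fun j => ((Q j : Qbar) : ℂ)) ∈ Curve a b)
    (s : LimitPoint (fun j => ((Q j : Qbar) : ℂ)) n)
    (hw : eval Q F.w ≠ 0) (hc : ∀ i, eval Q (F.c i) = 0)
    (hc0 : ∀ i, ∃ P ∈ Curve a b, aeval P (F.c i) ≠ 0)
    (hgen : F.InGeneralPosition (F.par fun j => ((Q j : Qbar) : ℂ)) m) :
    {P : Fin 2 → ℚ | (fun j => ((P j : ℚ) : ℂ)) ∈ Curve a b ∧
      ¬ NoAtypical m (F.member s fun j => ((P j : ℚ) : ℂ))}.Finite := by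
  have := F.finite
  have hQ' : Q 1 ^ 2 = Q 0 ^ 3 + (a : Qbar) * Q 0 + (b : Qbar) := by
    apply Subtype.ext
    have h1 : ((Q 1 : Qbar) : ℂ) ^ 2 = ((Q 0 : Qbar) : ℂ) ^ 3 + a * ((Q 0 : Qbar) : ℂ) + b := hQ
    push_cast
    exact h1
  have hab' : 4 * (a : Qbar) ^ 3 + 27 * (b : Qbar) ^ 2 ≠ 0 := by
    intro h
    apply hab
    exact_mod_cast h
  have hcasta : ((a : Qbar) : ℂ) = (a : ℂ) := by push_cast; rfl
  have hcastb : ((b : Qbar) : ℂ) = (b : ℂ) := by push_cast; rfl
  have h1 := Pool.Agent.D0H93.ZF.main_ell F.G F.hG F.A F.B F.d F.hA F.hB (a : Qbar) (b : Qbar)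
    hab' F.u F.w F.c Q hQ' (fun i => by
      obtain ⟨P, hP, hne⟩ := hc0 i
      refine ⟨P, ?_, hne⟩
      change P 1 ^ 2 = P 0 ^ 3 + ((a : Qbar) : ℂ) * P 0 + ((b : Qbar) : ℂ)
      rw [hcasta, hcastb]
      exact hP) hw hc (m := m) (fun I hI y hyG hyI => by
      by_contra hy0
      obtain ⟨i, hi, h2⟩ := hgen I hI y ⟨hy0, fun k => by rw [par_eq, valueAt_eq]; exact hyG k⟩
      rw [par_eq, valueAt_eq, valueAt_eq] at h2
      exact h2 (hyI i hi)) s.τ s.cm s.mem s.not_zero s.not_1728
    (fun i k z z' hik hi hk hiso => by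
      obtain ⟨M, τ, w, h3, h4, h5, h6⟩ := hiso
      exact s.not_isogenous i k z z' hik hi hk ⟨M, τ, w, h3, h4, h5, h6⟩) s.one_cusp
  refine h1.subset ?_
  rintro P ⟨hP, hbad⟩
  refine ⟨?_, ?_⟩
  · rw [hcasta, hcastb]
    exact hP
  rintro ⟨-, hall⟩
  apply hbad
  have hcoe : (fun j => ((P j : ℚ) : ℂ)) =
      fun j => ((Pool.Agent.D0H93.ZF.pQ P j : Qbar) : ℂ) := by
    funext j
    unfold Pool.Agent.D0H93.ZF.pQ
    push_cast
    rfl
  have hpt : ∀ (r : ℕ) (Z : SpecialVariety n r), ∀ x ∈ (F.member s fun j => ((P j : ℚ) : ℂ)) ∩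
      Z.locus, ∀ S : Finset (Fin n), AlgebraicIndependent ℚ (fun i : S => x i) →
        S.card + n ≤ r + m := by
    rintro r Z x ⟨⟨y, ⟨hy0, hyG⟩, hxy⟩, hxZ⟩ S hS
    rw [hcoe, par_eq] at hyG hxy
    have h2 := hall r ⟨Z.cls, Z.surj, Z.mat, Z.det_pos, Z.cm, Z.isCM⟩ x hxZ y hy0
      (fun k => by
        rw [← valueAt_eq]
        exact hyG k)
      (fun i => by
        have h3 := hxy i
        rw [valueAt_eq, valueAt_eq, ← Pool.Agent.D0H93.ZF.coe_eval] at h3
        exact h3) S hS
    omega
  intro r Z
  refine ⟨?_, hpt r Z⟩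
  intro W hW hcl hprime
  obtain ⟨x, hxW, T, hT, hdim⟩ := Pool.Agent.W466.ZC.generic_dim ℚ W hprime hcl
  have h2 := hpt r Z x (hW hxW) T hT
  calc zdim W + (n : Cardinal) ≤ (T.card : Cardinal) + (n : Cardinal) := by gcongr
    _ = ((T.card + n : ℕ) : Cardinal) := by push_cast; rfl
    _ ≤ ((r + m : ℕ) : Cardinal) := by exact_mod_cast h2
    _ = (r : Cardinal) + (m : Cardinal) := by push_cast; rfl

end Pool.Agent.Results.MP_d83ecd_ag.CMDegenerationElliptic
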