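import Pool.Agent.D0H93.ZE.Count

/-!
# MP_d83ecd_ag: a p-adic region of `Y(1)^n` in which Zilber-Pink holds for all subvarieties

The Shimura variety `Y(1)^n` is identified with `ℂ^n` by the elliptic modular function
`jj = j = E₄³ / Δ`.

Let `V` be a place of `ℂ` (a valuation ring, for instance given by an isomorphism `ℂ ≅ ℂ_p`) above
an odd prime number `p`. The *ordinary region* of `Y(1)^n` is the union of the residue polydiscs
`|x_i - s_i| < 1` (`|x_i| > 1` if `s_i = ∞`) of all points `s` of `X(1)^n` with the following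
properties: at most one coordinate `s_i` is `∞`; the other coordinates are singular moduli
which are ordinary at `p` and not congruent to `0` or `1728`; they are pairwise not isogenous. In
other words, all coordinates but at most one, which has multiplicative reduction, have
ordinary reductions, different from `0` and `1728`, which are algebraic over the prime field and
pairwise not isogenous. For a field `L ⊂ ℂ` let `region V p L n` be the set of the points `x` of the
ordinary region for which every coordinate `x_i` is in `L` or transcendental; in particular it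
contains all points of the ordinary region with coordinates in `L`.

**Theorem.** Let `L` be such that the ring of the integral elements of `L` modulo `p` is finite, with
`B` elements: for example a finite extension of `ℚ_p` in `ℂ ≅ ℂ_p`, or a number field. Then

1. at most `(B + 1)^n` proper special subvarieties of `Y(1)^n` meet `region V p L n`;
2. for every subvariety `X` of `Y(1)^n`, of any dimension and over any field of definition, only
   finitely many atypical subvarieties `A` of `X` (components of the intersections `X ∩ Z` with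
   special subvarieties `Z` for which `dim A > dim X + dim Z - n`) meet `region V p L n`, and
   each of them is contained in one of the at most `(B + 1)^n` proper special subvarieties of 1.,
   which do not depend on `X`.

So the Zilber-Pink conjecture for `Y(1)^n` is true for all `X` and all sequences of atypical
subvarieties with a point in the region. The
region contains `100 %` of the residue classes of `Y(1)^n` over `L` if the number of elements of the
residue field of `L` tends to infinity (almost all elliptic curves over a large finite field are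
ordinary and two of them are almost never isogenous). Without a condition on the field `L` the
statement 1. is false: every residue disc contains infinitely many singular moduli, and the
conjecture for atypical subvarieties which meet the ordinary region contains cases of
the André-Oort conjecture.

**Proof.** Two coordinates of a point of the ordinary region are not isogenous, since the
canonical lifts `s_i` of their reductions are not isogenous (`near_isog`). So a special subvariety which
meets the region is given by equations `x_i = c_i` with singular moduli `c_i` for some of the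
coordinates (this uses that `j` is surjective, `jj_surjective`), and `c_i ∈ L`. Two
different singular moduli `c`, `c'` in the same ordinary residue class satisfy
`|c - c'|^((p - 1) p^k) = |p|` for some `k ≥ 0` (`cm_radius`, from the library of the starting file
`OrdinaryPlace`), in particular they are not congruent modulo `p`; so there are at most `B` possible
values for the `c_i`.
-/

set_option autoImplicit false

namespace Pool.Agent.Results.MP_d83ecd_ag.OrdinaryRegion

open UpperHalfPlane H294ZP MvPolynomial
open Pool.Agent.W282.ZP (idealOf zcl zdim)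

/-- A special subvariety of dimension `r` of `Y(1)^n`: a map `cls` from the coordinates onto `r`
classes (`none` for the constant coordinates), an integral matrix of positive determinant for each
coordinate, and a CM point for each coordinate. -/
structure SpecialVariety (n r : ℕ) where
  cls : Fin n → Option (Fin r)
  surj : ∀ l : Fin r, ∃ i, cls i = some l
  mat : Fin n → Matrix (Fin 2) (Fin 2) ℤ
  det_pos : ∀ i, 0 < (mat i).det
  cm : Fin n → ℍ
  isCM : ∀ i, IsCM (cm i)

/-- The points of a special subvariety: the constant coordinates are the singular moduli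
`j (cm i)`, the other coordinates are `j (g_i z_l)`, where `l` is the class of `i`, `g_i = mat i` and
`z_1, …, z_r` are free parameters in the upper half plane. -/
def SpecialVariety.locus {n r : ℕ} (Z : SpecialVariety n r) : Set (Fin n → ℂ) :=
  {x | ∃ z : Fin r → ℍ, ∀ i, (Z.cls i = none → x i = jj (Z.cm i)) ∧
    ∀ l, Z.cls i = some l → ∃ w : ℍ,
      (w : ℂ) * (Z.mat i 1 0 * z l + Z.mat i 1 1) = Z.mat i 0 0 * z l + Z.mat i 0 1 ∧ x i = jj w}

/-- `W` is a special subvariety. -/
def IsSpecial {n : ℕ} (W : Set (Fin n → ℂ)) : Prop :=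
  ∃ (r : ℕ) (Z : SpecialVariety n r), W = Z.locus

/-- The CM point `τ` is ordinary at `p`: `τ` is fixed by an integral matrix `M` whose determinant is
a power of `p` and whose trace is prime to `p` (`p` splits in the field `ℚ(τ)` and does not divide
the conductor). -/
def OrdinaryAt (p : ℕ) (τ : ℍ) : Prop :=
  ∃ (e : ℕ) (M : Matrix (Fin 2) (Fin 2) ℤ), 0 < e ∧ M.det = (p : ℤ) ^ e ∧ ¬ (p : ℤ) ∣ M.trace ∧
    (τ : ℂ) * (M 1 0 * τ + M 1 1) = M 0 0 * τ + M 0 1

/-- `x` and `x'` are the `j`-invariants of isogenous elliptic curves. -/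
def Isogenous (x x' : ℂ) : Prop :=
  ∃ (g : Matrix (Fin 2) (Fin 2) ℤ) (τ τ' : ℍ), 0 < g.det ∧
    (τ' : ℂ) * (g 1 0 * τ + g 1 1) = g 0 0 * τ + g 0 1 ∧ jj τ = x ∧ jj τ' = x'

/-- A point `s` of `X(1)^n` with coordinates `s_i = j (τ i)`, or `∞` for `τ i = none`: at most one
coordinate is `∞`, the other coordinates are singular moduli which are ordinary at `p`, not congruent
to `0` or `1728` at the place `V`, and pairwise not isogenous. -/
structure Center (V : ValuationSubring ℂ) (p n : ℕ) where
  τ : Fin n → Option ℍ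
  cm : ∀ i z, τ i = some z → IsCM z
  ordinary : ∀ i z, τ i = some z → OrdinaryAt p z
  not_zero : ∀ i z, τ i = some z → V.valuation (jj z) = 1
  not_1728 : ∀ i z, τ i = some z → V.valuation (jj z - 1728) = 1
  not_isogenous : ∀ i k z z', i ≠ k → τ i = some z → τ k = some z' →
    ¬ Isogenous (jj z) (jj z')
  one_cusp : ∀ i k, τ i = none → τ k = none → i = k

/-- The residue polydisc of `s`. -/
def Center.polydisc {V : ValuationSubring ℂ} {p n : ℕ} (s : Center V p n) : Set (Fin n → ℂ) :=
  {x | ∀ i, (∀ z, s.τ i = some z → V.valuation (x i - jj z) < 1) ∧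
    (s.τ i = none → 1 < V.valuation (x i))}

/-- The points of the ordinary region each of whose coordinates is in `L` or transcendental. -/
def region (V : ValuationSubring ℂ) (p : ℕ) (L : Subfield ℂ) (n : ℕ) : Set (Fin n → ℂ) :=
  {x | (∀ i, x i ∈ L ∨ ¬ IsAlgebraic ℚ (x i)) ∧ ∃ s : Center V p n, x ∈ s.polydisc}

/-- The ring of the integral elements of `L` modulo `p`. -/
def ModP (V : ValuationSubring ℂ) (p : ℕ) (L : Subfield ℂ) : Type :=
  (V.toSubring ⊓ L.toSubring : Subring ℂ) ⧸
    Ideal.span {((p : ℕ) : (V.toSubring ⊓ L.toSubring : Subring ℂ))}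

/-- `X` is an (irreducible, closed) subvariety of `Y(1)^n`. -/
def IsSubvariety {n : ℕ} (X : Set (Fin n → ℂ)) : Prop := zcl X ⊆ X ∧ (idealOf X).IsPrime

/-- `A` is an irreducible component of `Y`. -/
def IsComponent {n : ℕ} (Y A : Set (Fin n → ℂ)) : Prop :=
  A ⊆ Y ∧ IsSubvariety A ∧ ∀ A' : Set (Fin n → ℂ), A ⊆ A' → A' ⊆ Y → IsSubvariety A' → A' ⊆ A

/-- `A` is an atypical subvariety of `X`: a component of `X ∩ Z`, `Z` special, with
`dim A > dim X + dim Z - n`. -/
def IsAtypical {n : ℕ} (X A : Set (Fin n → ℂ)) : Prop :=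
  ∃ (r : ℕ) (Z : SpecialVariety n r), IsComponent (X ∩ Z.locus) A ∧
    zdim X + (r : Cardinal) < zdim A + (n : Cardinal)

/-- Zilber-Pink for all subvarieties of `Y(1)^n` in the ordinary region. -/
theorem result {p : ℕ} (hp : p.Prime) (hp2 : p ≠ 2) (V : ValuationSubring ℂ)
    (hpV : V.valuation (p : ℂ) < 1) (L : Subfield ℂ) (hL : Finite (ModP V p L)) (n : ℕ) :
    ({W : Set (Fin n → ℂ) | IsSpecial W ∧ W ≠ Set.univ ∧ (W ∩ region V p L n).Nonempty}.Finite ∧
      {W : Set (Fin n → ℂ) | IsSpecial W ∧ W ≠ Set.univ ∧ (W ∩ region V p L n).Nonempty}.ncard ≤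
        (Nat.card (ModP V p L) + 1) ^ n) ∧
    ∀ X : Set (Fin n → ℂ), IsSubvariety X →
      {A | IsAtypical X A ∧ (A ∩ region V p L n).Nonempty}.Finite ∧
      ∀ A, IsAtypical X A → (A ∩ region V p L n).Nonempty →
        ∃ W, IsSpecial W ∧ W ≠ Set.univ ∧ (W ∩ region V p L n).Nonempty ∧ A ⊆ W := by
  classical
  have hreg : region V p L n = Pool.Agent.D0H93.ZE.Om V p L n := by
    ext x
    constructor
    · rintro ⟨h1, s, hs⟩
      refine ⟨fun i hi => (h1 i).resolve_right (not_not.2 hi), s.τ, fun i z hz =>
        ⟨⟨s.cm i z hz, s.ordinary i z hz, s.not_zero i z hz, s.not_1728 i z hz⟩, (hs i).1 z hz⟩,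
        fun i hi => (hs i).2 hi, ?_, s.one_cusp⟩
      rintro i k z z' hik hi hk ⟨M, τ, w, h3, h4, h5, h6⟩
      exact s.not_isogenous i k z z' hik hi hk ⟨M, τ, w, h3, h4, h5, h6⟩
    · rintro ⟨h1, τ, h2, h3, h4, h5⟩
      refine ⟨fun i => ?_, ⟨τ, fun i z hz => (h2 i z hz).1.cm, fun i z hz => (h2 i z hz).1.ord,
        fun i z hz => (h2 i z hz).1.n0, fun i z hz => (h2 i z hz).1.n1, ?_, h5⟩,
        fun i => ⟨fun z hz => (h2 i z hz).2, h3 i⟩⟩
      · by_cases h : IsAlgebraic ℚ (x i)
        · exact Or.inl (h1 i h)
        · exact Or.inr h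
      · rintro i k z z' hik hi hk ⟨M, τ', w, h6, h7, h8, h9⟩
        exact h4 i k z z' hik hi hk ⟨M, τ', w, h6, h7, h8, h9⟩
  have hsp : ∀ W : Set (Fin n → ℂ), IsSpecial W ↔ Pool.Agent.D0H93.ZE.IsSp W := by
    intro W
    constructor
    · rintro ⟨r, Z, rfl⟩
      exact ⟨r, ⟨Z.cls, Z.surj, Z.mat, Z.det_pos, Z.cm, Z.isCM⟩, rfl⟩
    · rintro ⟨r, Z, rfl⟩
      exact ⟨r, ⟨Z.cls, Z.surj, Z.mat, Z.det_pos, Z.cm, Z.isCM⟩, rfl⟩
  have hcomp : ∀ Y A : Set (Fin n → ℂ), IsComponent Y A → Pool.Agent.D0H93.ZE.IsComp Y A := by
    rintro Y A ⟨h1, h2, h3⟩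
    exact ⟨h1, h2.1, h2.2, fun A' h4 h5 h6 h7 => h3 A' h4 h5 ⟨h6, h7⟩⟩
  have hat : ∀ X A : Set (Fin n → ℂ), IsAtypical X A → Pool.Agent.D0H93.ZE.IsAtyp X A := by
    rintro X A ⟨r, Z, h1, h2⟩
    exact ⟨r, ⟨Z.cls, Z.surj, Z.mat, Z.det_pos, Z.cm, Z.isCM⟩, hcomp _ _ h1, h2⟩
  obtain ⟨h1, h2⟩ := Pool.Agent.D0H93.ZE.special_count hp hp2 hpV L hL n
  rw [hreg]
  have hsub : {W : Set (Fin n → ℂ) | IsSpecial W ∧ W ≠ Set.univ ∧
      (W ∩ Pool.Agent.D0H93.ZE.Om V p L n).Nonempty} ⊆
      {W : Set (Fin n → ℂ) | Pool.Agent.D0H93.ZE.IsSp W ∧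
        (W ∩ Pool.Agent.D0H93.ZE.Om V p L n).Nonempty} :=
    fun W hW => ⟨(hsp W).1 hW.1, hW.2.2⟩
  refine ⟨⟨h1.subset hsub, (Set.ncard_le_ncard hsub h1).trans h2⟩, ?_⟩
  rintro X ⟨hX1, hX2⟩
  refine ⟨(Pool.Agent.D0H93.ZE.atyp_finite hp hp2 hpV L hL X hX1).subset
    fun A hA => ⟨hat X A hA.1, hA.2⟩, ?_⟩
  intro A hA hne
  obtain ⟨W, hW1, hW2, hW3, hW4⟩ :=
    Pool.Agent.D0H93.ZE.proper_of_atyp hp hp2 hpV L hX2 (hat X A hA) hne
  exact ⟨W, (hsp W).2 hW1, hW3, hW2, hW4⟩

end Pool.Agent.Results.MP_d83ecd_ag.OrdinaryRegion
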